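import Pool.Agent.H668Z.SC.Final

set_option autoImplicit false

namespace Pool.Agent.Results.MP_e1b29e_al.AMaxFails

/-- There is a group `G = AB` in which `A` and `B` satisfy the maximum condition on subgroups
and `G` does not. -/
theorem result :
    ∃ (G : Type) (_ : Group G) (A B : Subgroup G),
      (∀ g : G, ∃ a ∈ A, ∃ b ∈ B, a * b = g) ∧
      WellFoundedGT (Subgroup ↥A) ∧ WellFoundedGT (Subgroup ↥B) ∧
      ¬ WellFoundedGT (Subgroup G) := by
  have h := Pool.Agent.H923Z.SCApp.thm_max Pool.Agent.H668Z.SC.embed_holds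
  by_contra hn
  apply h
  intro G _ A B h1 h2 h3
  by_contra h4
  exact hn ⟨G, inferInstance, A, B, h1, h2, h3, h4⟩

end Pool.Agent.Results.MP_e1b29e_al.AMaxFails
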